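import Pool.Agent.Helper77.CR.BASE

/-!
# Universal potentials
-/

namespace Pool.Agent.Helper77.CR

open Pool.Agent.Helper9.FA (Item Cor Ang wfP labels)
open Pool.Agent.Helper9.TW (Lab Conn)
open Pool.Agent.Helper28.TX (PV Pot)

variable {α : Type}

namespace UniAux

theorem mem_ids {c : List ℕ} {θ : List (PV ℕ)} {e : List (Bool × ℕ × ℕ)} {x : ℕ} :
    x ∈ ids c θ e ↔ x ∈ c ∨ (∃ q ∈ θ, x ∈ cor q) ∨ ∃ y ∈ e, x = y.2.1 ∨ x = y.2.2 := by
  simp only [ids, List.mem_toFinset, List.mem_append, List.mem_flatMap, List.mem_cons,
    List.not_mem_nil, or_false, or_assoc]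

theorem ids_congr {K : Type} {c : List ℕ} {θ : List (PV ℕ)} {e : List (Bool × ℕ × ℕ)}
    {h h' : ℕ → K} (hh : ∀ x ∈ ids c θ e, h x = h' x) :
    c.map h = c.map h' ∧ θ.map (PV.map h) = θ.map (PV.map h') ∧ mE h e = mE h' e := by
  refine ⟨List.map_congr_left fun x hx => hh x (mem_ids.2 (Or.inl hx)), ?_, ?_⟩
  · refine List.map_congr_left fun q hq => ?_
    have h1 : ∀ x ∈ cor q, h x = h' x := fun x hx => hh x (mem_ids.2 (Or.inr (Or.inl ⟨q, hq, hx⟩)))
    simp only [PV.map]
    rw [h1 q.L (by simp [cor]), h1 q.B (by simp [cor]), h1 q.R (by simp [cor]),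
      h1 q.T (by simp [cor])]
  · refine List.map_congr_left fun y hy => ?_
    rw [hh y.2.1 (mem_ids.2 (Or.inr (Or.inr ⟨y, hy, Or.inl rfl⟩))),
      hh y.2.2 (mem_ids.2 (Or.inr (Or.inr ⟨y, hy, Or.inr rfl⟩)))]

theorem split1 {xs : List ℕ} {k : ℕ} (h : k + 1 ≤ xs.length) :
    ∃ l a r, xs = l ++ a :: r ∧ l.length = k := by
  refine ⟨xs.take k, xs[k], xs.drop (k + 1), ?_, by simp; omega⟩
  rw [← List.drop_eq_getElem_cons, List.take_append_drop]

theorem split3 {xs : List ℕ} {k : ℕ} (h : k + 3 ≤ xs.length) :
    ∃ l a b d r, xs = l ++ a :: b :: d :: r ∧ l.length = k := by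
  refine ⟨xs.take k, xs[k], xs[k + 1], xs[k + 2], xs.drop (k + 3), ?_, by simp; omega⟩
  rw [← List.drop_eq_getElem_cons, ← List.drop_eq_getElem_cons, ← List.drop_eq_getElem_cons,
    List.take_append_drop]

section inv

variable {K : Type} {k0 k1 : K} {P : List (Item α)} {k : ℕ} {c : List K} {θ : List (PV K)}
  {e : List (Bool × K × K)}

theorem cup_inv (h : Pot k0 k1 (.cup k :: P) c θ e) : ∃ l r a m e1, l.length = k ∧
    c = l ++ a :: r ∧ e = (true, a, m) :: e1 ∧ Pot k0 k1 P (l ++ a :: m :: a :: r) θ e1 := by
  cases h with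
  | cup h => exact ⟨_, _, _, _, _, rfl, rfl, rfl, h⟩

theorem cap_inv (h : Pot k0 k1 (.cap k :: P) c θ e) : ∃ l r a m e1, l.length = k ∧
    c = l ++ a :: m :: a :: r ∧ e = (false, a, m) :: e1 ∧ Pot k0 k1 P (l ++ a :: r) θ e1 := by
  cases h with
  | cap h => exact ⟨_, _, _, _, _, rfl, rfl, rfl, h⟩

theorem box_inv {x : α} (h : Pot k0 k1 (.box k x :: P) c θ e) : ∃ l r q θ1, l.length = k ∧
    c = l ++ q.L :: q.B :: q.R :: r ∧ θ = q :: θ1 ∧
    Pot k0 k1 P (l ++ q.L :: q.T :: q.R :: r) θ1 e := by
  cases h with
  | box h => exact ⟨_, _, _, _, rfl, rfl, rfl, h⟩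

end inv

theorem ncap_mE {K K' : Type} (f : K → K') (e : List (Bool × K × K)) :
    ncap (mE f e) = ncap e := by
  induction e with
  | nil => rfl
  | cons y e ih =>
    obtain ⟨b, x, z⟩ := y
    cases b <;> simp_all [ncap, mE]

theorem ncup_mE {K K' : Type} (f : K → K') (e : List (Bool × K × K)) :
    ncup (mE f e) = ncup e := by
  induction e with
  | nil => rfl
  | cons y e ih =>
    obtain ⟨b, x, z⟩ := y
    cases b <;> simp_all [ncup, mE]

end UniAux

open UniAux

theorem exists_uni_len {P : List (Item α)} : ∀ {n : ℕ}, wfP n P 1 →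
    ∃ (c0 c1 : ℕ) (c : List ℕ) (θ : List (PV ℕ)) (e : List (Bool × ℕ × ℕ)),
      Uni P c0 c1 c θ e ∧ c.length = n + 1 := by
  induction P with
  | nil =>
    intro n hn
    have hn' : n = 1 := hn
    subst hn'
    refine ⟨0, 1, [0, 1], [], [], ⟨Pot.nil, ?_, ?_⟩, rfl⟩
    · intro K k0 k1 c' θ' e' h
      cases h
      exact ⟨fun x => if x = 0 then k0 else k1, by simp [mE]⟩
    · decide
  | cons it P ih =>
    intro n hP
    cases it with
    | cup k =>
      obtain ⟨hk, hP⟩ := hP
      obtain ⟨c0, c1, c, θ, e, hU, hlen⟩ := ih hP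
      obtain ⟨l, a1, m, a2, r, rfl, hl⟩ := split3 (xs := c) (k := k) (by omega)
      set ρ : ℕ → ℕ := fun x => if x = a2 then a1 else x with hρ
      have r1 : ρ a1 = a1 := by
        simp only [hρ]
        split_ifs <;> rfl
      have r2 : ρ a2 = a1 := by simp [hρ]
      have hpot := pot_map ρ hU.pot
      rw [List.map_append, List.map_cons, List.map_cons, List.map_cons, r1, r2] at hpot
      have hpot' := Pot.cup hpot
      rw [List.length_map, hl] at hpot'
      refine ⟨ρ c0, ρ c1, _, _, _, ⟨hpot', ?_, ?_⟩, ?_⟩
      · intro K k0 k1 c'' θ'' e'' h''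
        obtain ⟨l'', r'', κ, μ, e1, hl'', rfl, rfl, hp⟩ := cup_inv h''
        obtain ⟨h, h0, h1, hc, hθ, he⟩ := hU.uni K k0 k1 _ _ _ hp
        rw [List.map_append] at hc
        obtain ⟨hc1, hc2⟩ := List.append_inj hc (by rw [List.length_map, hl, hl''])
        simp only [List.map_cons, List.cons.injEq] at hc2
        obtain ⟨g1, g2, g3, g4⟩ := hc2
        have hρh : ∀ x, h (ρ x) = h x := by
          intro x
          simp only [hρ]
          split_ifs with hx
          · rw [hx, ← g1, ← g3]
          · rfl
        have hρh' : h ∘ ρ = h := funext hρh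
        refine ⟨h, by rw [hρh, h0], by rw [hρh, h1], ?_, ?_, ?_⟩
        · rw [List.map_append, List.map_cons, List.map_map, List.map_map, hρh', ← hc1, ← g1, ← g4]
        · rw [hθ, List.map_map]
          congr 1
          funext q
          simp only [Function.comp, PV.map, hρh]
        · rw [he]
          simp only [mE, List.map_cons, List.map_map]
          refine List.cons.injEq _ _ _ _ |>.mpr ⟨?_, ?_⟩
          · rw [hρh, ← g1, ← g2]
          · refine List.map_congr_left fun y _ => ?_
            simp only [Function.comp, hρh]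
      · have h1 := hU.card
        have h2 : (ids (c0 :: c1 :: (l ++ a1 :: m :: a2 :: r)) θ e).card ≤
            (ids (ρ c0 :: ρ c1 :: (l.map ρ ++ a1 :: r.map ρ)) (θ.map (PV.map ρ))
              ((true, a1, ρ m) :: mE ρ e)).card + 1 := by
          refine le_trans (Finset.card_le_card (t := insert a2 (ids (ρ c0 :: ρ c1 ::
            (l.map ρ ++ a1 :: r.map ρ)) (θ.map (PV.map ρ)) ((true, a1, ρ m) :: mE ρ e))) ?_)
            (Finset.card_insert_le _ _)
          intro x hx
          rw [Finset.mem_insert]
          by_cases hxa : x = a2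
          · exact Or.inl hxa
          right
          have hx' : ρ x = x := by simp [hρ, hxa]
          rw [← hx', mem_ids]
          rw [mem_ids] at hx
          rcases hx with hx | ⟨q, hq, hx⟩ | ⟨y, hy, hx⟩
          · simp only [List.mem_cons, List.mem_append] at hx
            rcases hx with rfl | rfl | hx | rfl | rfl | rfl | hx
            · left; simp
            · left; simp
            · left
              simp only [List.mem_cons, List.mem_append]
              exact Or.inr (Or.inr (Or.inl (List.mem_map_of_mem hx)))
            · left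
              rw [r1]
              simp
            · right; right
              exact ⟨(true, a1, ρ x), List.mem_cons_self, Or.inr rfl⟩
            · exact absurd rfl hxa
            · left
              simp only [List.mem_cons, List.mem_append]
              exact Or.inr (Or.inr (Or.inr (Or.inr (List.mem_map_of_mem hx))))
          · right; left
            refine ⟨PV.map ρ q, List.mem_map_of_mem hq, ?_⟩
            simp only [cor, PV.map, List.mem_cons, List.not_mem_nil, or_false] at hx ⊢
            rcases hx with rfl | rfl | rfl | rfl <;> simp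
          · right; right
            refine ⟨(y.1, ρ y.2.1, ρ y.2.2), List.mem_cons_of_mem _ (List.mem_map.2 ⟨y, hy, rfl⟩), ?_⟩
            rcases hx with rfl | rfl
            · exact Or.inl rfl
            · exact Or.inr rfl
        have h3 : ncap ((true, a1, ρ m) :: mE ρ e) = ncap e := by
          rw [← ncap_mE ρ e]
          simp [ncap]
        have h4 : ncup ((true, a1, ρ m) :: mE ρ e) = ncup e + 1 := by
          rw [← ncup_mE ρ e]
          simp [ncup]
        rw [h3, h4, List.length_map]
        omega
      · simp only [List.length_append, List.length_cons, List.length_map] at hlen ⊢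
        omega
    | cap k =>
      obtain ⟨hk, hP⟩ := hP
      obtain ⟨c0, c1, c, θ, e, hU, hlen⟩ := ih hP
      obtain ⟨l, a, r, rfl, hl⟩ := split1 (xs := c) (k := k) (by omega)
      obtain ⟨m, hm⟩ := Infinite.exists_notMem_finset (ids (c0 :: c1 :: (l ++ a :: r)) θ e)
      have hpot := Pot.cap (m := m) hU.pot
      rw [hl] at hpot
      refine ⟨c0, c1, _, _, _, ⟨hpot, ?_, ?_⟩, ?_⟩
      · intro K k0 k1 c'' θ'' e'' h''
        obtain ⟨l'', r'', κ, μ, e1, hl'', rfl, rfl, hp⟩ := cap_inv h''
        obtain ⟨h, h0, h1, hc, hθ, he⟩ := hU.uni K k0 k1 _ _ _ hp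
        have hupd : ∀ x ∈ ids (c0 :: c1 :: (l ++ a :: r)) θ e,
            Function.update h m μ x = h x := by
          intro x hx
          rw [Function.update_of_ne]
          rintro rfl
          exact hm hx
        obtain ⟨u1, u2, u3⟩ := ids_congr hupd
        simp only [List.map_cons, List.map_append, List.cons.injEq] at u1
        obtain ⟨v0, v1, v2⟩ := u1
        rw [List.map_append, List.map_cons] at hc
        obtain ⟨hc1, hc2⟩ := List.append_inj hc (by rw [List.length_map, hl, hl''])
        rw [List.cons.injEq] at hc2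
        obtain ⟨w1, w2⟩ := List.append_inj v2 (by simp)
        rw [List.cons.injEq] at w2
        refine ⟨Function.update h m μ, by rw [v0, h0], by rw [v1, h1], ?_, ?_, ?_⟩
        · simp only [List.map_append, List.map_cons, Function.update_self]
          rw [w1, w2.1, w2.2, ← hc1, ← hc2.1, ← hc2.2]
        · rw [u2, hθ]
        · rw [he]
          show _ = (false, Function.update h m μ a, Function.update h m μ m) ::
            mE (Function.update h m μ) e
          rw [u3, w2.1, ← hc2.1, Function.update_self]
      · have h1 := hU.card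
        have h2 : (ids (c0 :: c1 :: (l ++ a :: r)) θ e).card + 1 ≤
            (ids (c0 :: c1 :: (l ++ a :: m :: a :: r)) θ ((false, a, m) :: e)).card := by
          rw [← Finset.card_insert_of_notMem hm]
          refine Finset.card_le_card fun x hx => ?_
          rw [Finset.mem_insert] at hx
          rw [mem_ids]
          rcases hx with rfl | hx
          · left; simp
          rw [mem_ids] at hx
          rcases hx with hx | hx | ⟨y, hy, hx⟩
          · left
            simp only [List.mem_cons, List.mem_append] at hx ⊢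
            tauto
          · exact Or.inr (Or.inl hx)
          · exact Or.inr (Or.inr ⟨y, List.mem_cons_of_mem _ hy, hx⟩)
        have h3 : ncap ((false, a, m) :: e) = ncap e + 1 := by simp [ncap]
        have h4 : ncup ((false, a, m) :: e) = ncup e := by simp [ncup]
        rw [h3, h4]
        omega
      · simp only [List.length_append, List.length_cons] at hlen ⊢
        omega
    | box k x =>
      obtain ⟨hk, hP⟩ := hP
      obtain ⟨c0, c1, c, θ, e, hU, hlen⟩ := ih hP
      obtain ⟨l, L, T, R, r, rfl, hl⟩ := split3 (xs := c) (k := k) (by omega)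
      obtain ⟨m, hm⟩ := Infinite.exists_notMem_finset
        (ids (c0 :: c1 :: (l ++ L :: T :: R :: r)) θ e)
      have hpot : Pot c0 c1 (.box k x :: P) (l ++ L :: m :: R :: r) (⟨L, m, R, T⟩ :: θ) e := by
        have := Pot.box (q := ⟨L, m, R, T⟩) (x := x) hU.pot
        rw [hl] at this
        exact this
      refine ⟨c0, c1, _, _, _, ⟨hpot, ?_, ?_⟩, ?_⟩
      · intro K k0 k1 c'' θ'' e'' h''
        obtain ⟨l'', r'', q, θ1, hl'', rfl, rfl, hp⟩ := box_inv h''
        obtain ⟨h, h0, h1, hc, hθ, he⟩ := hU.uni K k0 k1 _ _ _ hp
        have hupd : ∀ x ∈ ids (c0 :: c1 :: (l ++ L :: T :: R :: r)) θ e,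
            Function.update h m q.B x = h x := by
          intro x hx
          rw [Function.update_of_ne]
          rintro rfl
          exact hm hx
        obtain ⟨u1, u2, u3⟩ := ids_congr hupd
        simp only [List.map_cons, List.map_append, List.cons.injEq] at u1
        obtain ⟨v0, v1, v2⟩ := u1
        rw [List.map_append, List.map_cons, List.map_cons, List.map_cons] at hc
        obtain ⟨hc1, hc2⟩ := List.append_inj hc (by rw [List.length_map, hl, hl''])
        simp only [List.cons.injEq] at hc2
        obtain ⟨g1, g2, g3, g4⟩ := hc2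
        obtain ⟨w1, w2⟩ := List.append_inj v2 (by simp)
        simp only [List.cons.injEq] at w2
        obtain ⟨w2, w3, w4, w5⟩ := w2
        refine ⟨Function.update h m q.B, by rw [v0, h0], by rw [v1, h1], ?_, ?_, ?_⟩
        · simp only [List.map_append, List.map_cons, Function.update_self]
          rw [w1, w2, w4, w5, ← hc1, ← g1, ← g3, ← g4]
        · rw [List.map_cons, u2, ← hθ]
          congr 1
          simp only [PV.map, Function.update_self]
          rw [w2, w3, w4, ← g1, ← g2, ← g3]
        · rw [u3, he]
      · have h1 := hU.card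
        have h2 : (ids (c0 :: c1 :: (l ++ L :: T :: R :: r)) θ e).card + 1 ≤
            (ids (c0 :: c1 :: (l ++ L :: m :: R :: r)) (⟨L, m, R, T⟩ :: θ) e).card := by
          rw [← Finset.card_insert_of_notMem hm]
          refine Finset.card_le_card fun x hx => ?_
          rw [Finset.mem_insert] at hx
          rw [mem_ids]
          rcases hx with rfl | hx
          · left; simp
          rw [mem_ids] at hx
          rcases hx with hx | ⟨q, hq, hx⟩ | hx
          · simp only [List.mem_cons, List.mem_append] at hx
            rcases hx with rfl | rfl | hx | rfl | rfl | rfl | hx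
            · left; simp
            · left; simp
            · left
              simp only [List.mem_cons, List.mem_append]
              exact Or.inr (Or.inr (Or.inl hx))
            · left; simp
            · right; left
              exact ⟨_, List.mem_cons_self, by simp [cor]⟩
            · left; simp
            · left
              simp only [List.mem_cons, List.mem_append]
              exact Or.inr (Or.inr (Or.inr (Or.inr (Or.inr (Or.inr hx)))))
          · exact Or.inr (Or.inl ⟨q, List.mem_cons_of_mem _ hq, hx⟩)
          · exact Or.inr (Or.inr hx)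
        rw [List.length_cons]
        omega
      · simp only [List.length_append, List.length_cons] at hlen ⊢
        omega

theorem exists_uni {P : List (Item α)} {n : ℕ} (hP : wfP n P 1) :
    ∃ (c0 c1 : ℕ) (c : List ℕ) (θ : List (PV ℕ)) (e : List (Bool × ℕ × ℕ)), Uni P c0 c1 c θ e := by
  obtain ⟨c0, c1, c, θ, e, h, -⟩ := exists_uni_len hP
  exact ⟨c0, c1, c, θ, e, h⟩

end Pool.Agent.Helper77.CR
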